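import Pool.Agent.Helper31.BC.Stmts

set_option autoImplicit false

namespace Pool.Agent.Helper31.BC

open Pool.Agent.Helper52.Grid
open Pool.Agent.Helper68.LP (pert dbl ucost scale Costs)

theorem sum_pairs {n : ℕ} (g : Fin n → Fin n → ℝ) (hg : ∀ i, g i i = 0) :
    ∑ e : Pair n, (g e.1.1 e.1.2 + g e.1.2 e.1.1) = ∑ i, ∑ j, g i j := by
  classical
  have h1 : ∑ e : Pair n, (g e.1.1 e.1.2 + g e.1.2 e.1.1)
      = ∑ e ∈ (Finset.univ : Finset (Fin n × Fin n)).filter (fun e => e.1 < e.2),
        (g e.1 e.2 + g e.2 e.1) :=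
    (Finset.sum_subtype ((Finset.univ : Finset (Fin n × Fin n)).filter (fun e => e.1 < e.2))
      (by simp) (fun e : Fin n × Fin n => g e.1 e.2 + g e.2 e.1)).symm
  rw [h1, Finset.sum_add_distrib]
  have h2 : ∑ e ∈ (Finset.univ : Finset (Fin n × Fin n)).filter (fun e => e.1 < e.2), g e.2 e.1
      = ∑ e ∈ (Finset.univ : Finset (Fin n × Fin n)).filter (fun e => ¬ e.1 < e.2), g e.1 e.2 := by
    have h3 : ∑ e ∈ (Finset.univ : Finset (Fin n × Fin n)).filter (fun e => ¬ e.1 < e.2), g e.1 e.2
        = ∑ e ∈ (Finset.univ : Finset (Fin n × Fin n)).filter (fun e => e.2 < e.1), g e.1 e.2 := by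
      symm
      apply Finset.sum_subset
      · intro e he
        simp only [Finset.mem_filter, Finset.mem_univ, true_and] at he ⊢
        exact not_lt.mpr he.le
      · intro e he he'
        simp only [Finset.mem_filter, Finset.mem_univ, true_and] at he he'
        have : e.1 = e.2 := le_antisymm (not_lt.mp he') (not_lt.mp he)
        rw [this]; exact hg _
    rw [h3]
    apply Finset.sum_bij (fun e _ => (e.2, e.1))
    · intro e he
      simp only [Finset.mem_filter, Finset.mem_univ, true_and] at he ⊢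
      exact he
    · rintro ⟨a, b⟩ _ ⟨c, d⟩ _ h
      simp only [Prod.mk.injEq] at h
      rw [h.1, h.2]
    · rintro ⟨a, b⟩ he
      simp only [Finset.mem_filter, Finset.mem_univ, true_and] at he
      exact ⟨(b, a), by simpa using he, rfl⟩
    · rintro ⟨a, b⟩ _
      rfl
  rw [h2, Finset.sum_filter_add_sum_filter_not, ← Finset.univ_product_univ, Finset.sum_product]

theorem sum_ucost (X Y : ℕ → ℕ → ℤ) (a b : Pt) :
    ucost X Y 0 a b =
      ((if b = (a.1 + 1, a.2) then X a.1 a.2 else 0) +
        (if b = (a.1, a.2 + 1) then Y a.1 a.2 else 0)) +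
      ((if a = (b.1 + 1, b.2) then X b.1 b.2 else 0) +
        (if a = (b.1, b.2 + 1) then Y b.1 b.2 else 0)) := by
  obtain ⟨a1, a2⟩ := a
  obtain ⟨b1, b2⟩ := b
  unfold ucost
  simp only [Prod.mk.injEq]
  split_ifs <;> omega

theorem st_SUM : ST_SUM := by
  classical
  intro n N h v X Y p w hB hw hX hY hp hV
  have hstep : ∀ e : Pair n, w (p e.1.1) (p e.1.2) * (xv X Y p e : ℝ)
      = (fun i j => w (p i) (p j) *
          ((if p j = ((p i).1 + 1, (p i).2) then (X (p i).1 (p i).2 : ℝ) else 0) +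
           (if p j = ((p i).1, (p i).2 + 1) then (Y (p i).1 (p i).2 : ℝ) else 0))) e.1.1 e.1.2
        + (fun i j => w (p i) (p j) *
          ((if p j = ((p i).1 + 1, (p i).2) then (X (p i).1 (p i).2 : ℝ) else 0) +
           (if p j = ((p i).1, (p i).2 + 1) then (Y (p i).1 (p i).2 : ℝ) else 0))) e.1.2 e.1.1 := by
    intro e
    simp only [xv]
    rw [sum_ucost, hw (p e.1.2) (p e.1.1)]
    push_cast
    ring
  have key := sum_pairs (fun i j => w (p i) (p j) *
          ((if p j = ((p i).1 + 1, (p i).2) then (X (p i).1 (p i).2 : ℝ) else 0) +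
           (if p j = ((p i).1, (p i).2 + 1) then (Y (p i).1 (p i).2 : ℝ) else 0))) (by
    intro i
    have e1 : ¬ (p i = ((p i).1 + 1, (p i).2)) := by
      intro h0
      have := congrArg Prod.fst h0
      simp at this
    have e2 : ¬ (p i = ((p i).1, (p i).2 + 1)) := by
      intro h0
      have := congrArg Prod.snd h0
      simp at this
    simp only [if_neg e1, if_neg e2]
    ring)
  refine (Finset.sum_congr rfl fun e _ => hstep e).trans (key.trans ?_)
  set F : Pt → ℝ := fun a => w a (a.1 + 1, a.2) * (X a.1 a.2 : ℝ) + w a (a.1, a.2 + 1) * (Y a.1 a.2 : ℝ)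
    with hF
  have hin : ∀ i, ∑ j, w (p i) (p j) *
          ((if p j = ((p i).1 + 1, (p i).2) then (X (p i).1 (p i).2 : ℝ) else 0) +
           (if p j = ((p i).1, (p i).2 + 1) then (Y (p i).1 (p i).2 : ℝ) else 0)) = F (p i) := by
    intro i
    simp only [mul_add]
    rw [Finset.sum_add_distrib, hF]
    refine congrArg₂ (· + ·) ?_ ?_
    · by_cases h0 : X (p i).1 (p i).2 = 0
      · simp [h0]
      · obtain ⟨j, hj⟩ := (hV _).mp (hX _ _ h0).2
        rw [Finset.sum_eq_single j]
        · rw [if_pos hj, hj]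
        · intro k _ hk
          rw [if_neg, mul_zero]
          intro h1
          exact hk (hp (h1.trans hj.symm))
        · intro h1
          exact absurd (Finset.mem_univ j) h1
    · by_cases h0 : Y (p i).1 (p i).2 = 0
      · simp [h0]
      · obtain ⟨j, hj⟩ := (hV _).mp (hY _ _ h0).2
        rw [Finset.sum_eq_single j]
        · rw [if_pos hj, hj]
        · intro k _ hk
          rw [if_neg, mul_zero]
          intro h1
          exact hk (hp (h1.trans hj.symm))
        · intro h1
          exact absurd (Finset.mem_univ j) h1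
  rw [Finset.sum_congr rfl fun i _ => hin i]
  have h1 : ∑ i, F (p i) = ∑ a ∈ (Finset.univ : Finset (Fin n)).image p, F a := by
    rw [Finset.sum_image]
    intro i _ j _ hij
    exact hp hij
  rw [h1, ← Finset.sum_product (f := fun a : ℕ × ℕ =>
    w (a.1, a.2) (a.1 + 1, a.2) * (X a.1 a.2 : ℝ) + w (a.1, a.2) (a.1, a.2 + 1) * (Y a.1 a.2 : ℝ))]
  apply Finset.sum_subset
  · intro a ha
    obtain ⟨i, _, rfl⟩ := Finset.mem_image.mp ha
    have := Pool.Agent.Helper68.LP.vert_box hB ((hV _).mpr ⟨i, rfl⟩)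
    simp only [Finset.mem_product, Finset.mem_range]
    omega
  · intro a _ ha
    have hx : X a.1 a.2 = 0 := by
      by_contra h0
      obtain ⟨i, hi⟩ := (hV _).mp (hX _ _ h0).1
      exact ha (Finset.mem_image.mpr ⟨i, Finset.mem_univ _, hi⟩)
    have hy : Y a.1 a.2 = 0 := by
      by_contra h0
      obtain ⟨i, hi⟩ := (hV _).mp (hY _ _ h0).1
      exact ha (Finset.mem_image.mpr ⟨i, Finset.mem_univ _, hi⟩)
    simp [hF, hx, hy]

end Pool.Agent.Helper31.BC
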